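import Pool.Agent.MDG.Stmts

set_option autoImplicit false

open Finset Pool.Agent.HEC

namespace Pool.Agent.MDG.H3

theorem cnt_eq {A : Type} [Fintype A] (P : A → Prop) [DecidablePred P] :
    cnt P = (univ.filter P).card := by
  unfold cnt
  refine congrArg Finset.card ?_
  ext x
  simp only [mem_filter]

theorem nd2_symm {V : Type} [Fintype V] (H : SimpleGraph V) (p : V → V) (w v : V) :
    nd2 H p w v = nd2 H p v w := by
  classical
  unfold nd2
  rw [cnt_eq, cnt_eq]
  refine card_bij (fun q _ => (q.2, q.1)) ?_ ?_ ?_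
  · intro q hq
    rw [mem_filter] at hq ⊢
    exact ⟨mem_univ _, hq.2.2.1, hq.2.1, hq.2.2.2.symm⟩
  · intro a _ b _ hab
    have h1 := congrArg Prod.fst hab
    have h2 := congrArg Prod.snd hab
    exact Prod.ext h2 h1
  · intro b hb
    rw [mem_filter] at hb
    refine ⟨(b.2, b.1), ?_, rfl⟩
    rw [mem_filter]
    exact ⟨mem_univ _, hb.2.2.1, hb.2.1, hb.2.2.2.symm⟩

theorem nd2_zero {V : Type} [Fintype V] (H : SimpleGraph V) (p : V → V) (hp : ∀ v, p (p v) = p v)
    (w v : V) (hw : p w ≠ w) : nd2 H p w v = 0 := by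
  classical
  unfold nd2
  rw [cnt_eq, card_eq_zero, filter_eq_empty_iff]
  rintro q - ⟨h1, -, -⟩
  apply hw
  rw [← h1]
  exact hp _

theorem dec (h1 : BloStmt) (h2 : DegStmt) (h3 : OrdStmt) : DecStmt := by
  intro V _ H k hk
  obtain ⟨p, hp, hblob, hX⟩ := h1 V H k hk
  classical
  let d : V → V → ℕ := fun w v => if w = v then 0 else nd2 H p w v
  have dsymm : ∀ w v, d w v = d v w := by
    intro w v
    by_cases h : w = v
    · rw [h]
    · have h' : ¬ v = w := fun e => h e.symm
      simp only [d, if_neg h, if_neg h']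
      exact nd2_symm H p w v
  have dself : ∀ w, d w w = 0 := by
    intro w
    simp only [d, if_true]
  have dle : ∀ w v, d w v ≤ nd2 H p w v := by
    intro w v
    by_cases h : w = v
    · simp only [d, if_pos h]
      exact Nat.zero_le _
    · simp only [d, if_neg h]
      exact le_refl _
  have hord : ∀ X : Finset V, X.Nonempty → ∃ w ∈ X, ∑ v ∈ X, d w v < 2 * k := by
    intro X hne
    by_cases hsub : X ⊆ univ.filter (fun w => p w = w)
    · refine h2 V d k (univ.filter (fun w => p w = w)) hk dsymm dself ?_ X hsub hne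
      intro Z hZ hcard
      obtain ⟨Y, hY, hYne, hYX, hsum⟩ := hX Z (fun w hw => (mem_filter.1 (hZ hw)).2) hcard
      refine ⟨Y, hY, hYne, hYX, lt_of_le_of_lt ?_ hsum⟩
      exact sum_le_sum fun w _ => sum_le_sum fun v _ => dle w v
    · rw [not_subset] at hsub
      obtain ⟨w, hw, hw2⟩ := hsub
      have hw3 : p w ≠ w := fun e => hw2 (mem_filter.2 ⟨mem_univ _, e⟩)
      refine ⟨w, hw, ?_⟩
      have h0 : ∑ v ∈ X, d w v = 0 := by
        refine sum_eq_zero ?_
        intro v _
        have h4 := dle w v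
        rw [nd2_zero H p hp w v hw3] at h4
        omega
      rw [h0]
      omega
  obtain ⟨ord, hinj, hlt⟩ := h3 V d (2 * k) hord
  refine ⟨p, ord, hp, hinj, hblob, ?_⟩
  intro w
  refine lt_of_le_of_lt ?_ (hlt w)
  have hstep : ∑ v ∈ univ.filter (fun v => ord w < ord v), d w v =
      ∑ v ∈ univ.filter (fun v => ord w < ord v), nd2 H p w v := by
    refine sum_congr rfl ?_
    intro v hv
    have hv2 := (mem_filter.1 hv).2
    have hne : ¬ w = v := fun e => by
      rw [e] at hv2
      exact lt_irrefl _ hv2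
    simp only [d, if_neg hne]
  rw [hstep]
  unfold nd2
  simp only [cnt_eq]
  refine le_trans (card_le_card ?_) (card_biUnion_le (s := univ.filter (fun v => ord w < ord v))
    (t := fun v => univ.filter fun q : V × V => p q.1 = w ∧ p q.2 = v ∧ H.Adj q.1 q.2))
  intro q hq
  rw [mem_filter] at hq
  rw [mem_biUnion]
  refine ⟨p q.2, ?_, ?_⟩
  · rw [mem_filter]
    exact ⟨mem_univ _, hq.2.2.2⟩
  · rw [mem_filter]
    exact ⟨mem_univ _, hq.2.1, rfl, hq.2.2.1⟩

end Pool.Agent.MDG.H3
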